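import Mathlib
import Pool.Agent.H759R2.Kad.Props

open scoped ComplexOrder InnerProductSpace ComplexConjugate
open Finset

noncomputable section

namespace H759R2.Kad

universe u v

/-- Signed permutation matrices. -/
def spm {ι : Type} [Fintype ι] [DecidableEq ι] (σ : Equiv.Perm ι) (e : ι → ℤˣ) : Matrix ι ι ℂ :=
  fun i j => if σ i = j then ((e i : ℤ) : ℂ) else 0

theorem spm_apply {ι : Type} [Fintype ι] [DecidableEq ι] (σ : Equiv.Perm ι) (e : ι → ℤˣ)
    (i j : ι) : spm σ e i j = if σ i = j then ((e i : ℤ) : ℂ) else 0 := rfl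

theorem spm_mem {ι : Type} [Fintype ι] [DecidableEq ι] (σ : Equiv.Perm ι) (e : ι → ℤˣ) :
    spm σ e ∈ unitary (Matrix ι ι ℂ) := by
  have hsq : ∀ i, ((e i : ℤ) : ℂ) * ((e i : ℤ) : ℂ) = 1 := by
    intro i
    rcases Int.units_eq_one_or (e i) with h | h <;> simp [h]
  have h1 : spm σ e * star (spm σ e) = 1 := by
    ext i i'
    rw [Matrix.mul_apply, Finset.sum_eq_single (σ i)]
    · rw [Matrix.star_apply, spm_apply, spm_apply, Matrix.one_apply]
      by_cases h : i = i'
      · subst h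
        simp [hsq]
      · have : σ i' ≠ σ i := fun h' => h (σ.injective h').symm
        simp [h, this]
    · intro j _ hj
      rw [spm_apply, if_neg (Ne.symm hj), zero_mul]
    · simp
  exact ⟨mul_eq_one_comm.mp h1, h1⟩

theorem sum_sign {ι : Type} [Fintype ι] [DecidableEq ι] {i i' : ι} (h : i ≠ i') :
    ∑ e : ι → ℤˣ, (((e i : ℤ) : ℂ) * ((e i' : ℤ) : ℂ)) = 0 := by
  have hinv : Function.Involutive (fun e : ι → ℤˣ => Function.update e i (-e i)) := by
    intro e
    funext j
    by_cases hj : j = i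
    · subst hj
      simp
    · simp [hj]
  have key := Equiv.sum_comp (Function.Involutive.toPerm _ hinv)
    (fun e : ι → ℤˣ => (((e i : ℤ) : ℂ) * ((e i' : ℤ) : ℂ)))
  have h2 : ∀ e : ι → ℤˣ, ((((Function.Involutive.toPerm _ hinv e) i : ℤˣ) : ℤ) : ℂ) *
      ((((Function.Involutive.toPerm _ hinv e) i' : ℤˣ) : ℤ) : ℂ) =
        - (((e i : ℤ) : ℂ) * ((e i' : ℤ) : ℂ)) := by
    intro e
    have e1 : (Function.Involutive.toPerm _ hinv e) i = - e i := by
      simp [Function.Involutive.toPerm]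
    have e2 : (Function.Involutive.toPerm _ hinv e) i' = e i' := by
      simp [Function.Involutive.toPerm, h.symm]
    rw [e1, e2]
    push_cast
    ring
  simp only [h2, Finset.sum_neg_distrib] at key
  have : (2 : ℂ) * ∑ e : ι → ℤˣ, (((e i : ℤ) : ℂ) * ((e i' : ℤ) : ℂ)) = 0 := by
    linear_combination -key
  simpa using this

theorem sum_perm {ι : Type} [Fintype ι] [DecidableEq ι] {V : Type*} [AddCommGroup V] [Module ℂ V]
    (f : ι → V) (i : ι) :
    (Fintype.card ι : ℂ) • ∑ σ : Equiv.Perm ι, f (σ i) =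
      (Fintype.card (Equiv.Perm ι) : ℂ) • ∑ c, f c := by
  have hindep : ∀ j : ι, ∑ σ : Equiv.Perm ι, f (σ j) = ∑ σ : Equiv.Perm ι, f (σ i) := by
    intro j
    have := Equiv.sum_comp (Equiv.mulRight (Equiv.swap i j)) (fun σ : Equiv.Perm ι => f (σ j))
    rw [← this]
    refine Finset.sum_congr rfl fun σ _ => ?_
    simp
  have h1 : ∑ j : ι, ∑ σ : Equiv.Perm ι, f (σ j) =
      (Fintype.card ι : ℂ) • ∑ σ : Equiv.Perm ι, f (σ i) := by
    rw [Finset.sum_congr rfl fun j _ => hindep j, Finset.sum_const, Finset.card_univ,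
      Nat.cast_smul_eq_nsmul]
  have h2 : ∑ j : ι, ∑ σ : Equiv.Perm ι, f (σ j) =
      (Fintype.card (Equiv.Perm ι) : ℂ) • ∑ c, f c := by
    rw [Finset.sum_comm]
    have : ∀ σ : Equiv.Perm ι, ∑ j, f (σ j) = ∑ c, f c := fun σ => Equiv.sum_comp σ f
    rw [Finset.sum_congr rfl fun σ _ => this σ, Finset.sum_const, Finset.card_univ,
      Nat.cast_smul_eq_nsmul]
  rw [← h1, h2]

section

variable {A : Type u} [CStarAlgebra A] [PartialOrder A] [StarOrderedRing A]

/-- Constant diagonal matrices as a *-homomorphism. -/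
def dgl (A : Type u) [CStarAlgebra A] (ι : Type) [Fintype ι] [DecidableEq ι] :
    A →⋆ₙₐ[ℂ] CStarMatrix ι ι A where
  toFun y := CStarMatrix.ofMatrix (Matrix.diagonal fun _ => y)
  map_smul' c y := by
    ext i j
    by_cases h : i = j <;> simp [h]
  map_zero' := by
    ext i j
    simp
  map_add' x y := by
    ext i j
    by_cases h : i = j <;> simp [h]
  map_mul' x y := by
    ext i j
    simp only [CStarMatrix.mul_apply, CStarMatrix.ofMatrix_apply, Matrix.diagonal_apply]
    by_cases h : i = j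
    · subst h
      simp
    · simp [h]
  map_star' x := by
    ext i j
    simp only [CStarMatrix.star_apply, CStarMatrix.ofMatrix_apply, Matrix.diagonal_apply]
    by_cases h : i = j
    · subst h
      simp
    · simp [h, Ne.symm h]

omit [PartialOrder A] [StarOrderedRing A] in
theorem dgl_apply (ι : Type) [Fintype ι] [DecidableEq ι] (y : A) (i j : ι) :
    dgl A ι y i j = if i = j then y else 0 := by
  simp only [dgl]
  exact Matrix.diagonal_apply ..

theorem norm_dgl_le (ι : Type) [Fintype ι] [DecidableEq ι] (y : A) :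
    ‖dgl A ι y‖ ≤ ‖y‖ := NonUnitalStarAlgHom.norm_apply_le _ y

omit [PartialOrder A] [StarOrderedRing A] in
theorem tens_apply {ι : Type} [Fintype ι] (s : Matrix ι ι ℂ) (h : A) (i j : ι) :
    tens s h i j = s i j • h := rfl

omit [PartialOrder A] [StarOrderedRing A] in
theorem conj_apply {ι : Type} [Fintype ι] [DecidableEq ι] (σ : Equiv.Perm ι) (e : ι → ℤˣ) (h : A)
    (X : CStarMatrix ι ι A) (i i' : ι) :
    (tens (spm σ e) h * X * star (tens (spm σ e) h)) i i' =
      (((e i : ℤ) : ℂ) * ((e i' : ℤ) : ℂ)) • (h * X (σ i) (σ i') * star h) := by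
  rw [CStarMatrix.mul_apply, Finset.sum_eq_single (σ i')]
  · rw [CStarMatrix.mul_apply, Finset.sum_eq_single (σ i)]
    · rw [CStarMatrix.star_apply, tens_apply, tens_apply, spm_apply, spm_apply, if_pos rfl,
        if_pos rfl, star_smul]
      have : star (((e i' : ℤ) : ℂ)) = ((e i' : ℤ) : ℂ) := by simp
      rw [this, smul_mul_assoc, smul_mul_assoc, mul_smul_comm, smul_smul]
    · intro j _ hj
      rw [tens_apply, spm_apply, if_neg (Ne.symm hj), zero_smul, zero_mul]
    · simp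
  · intro j _ hj
    rw [CStarMatrix.star_apply, tens_apply, spm_apply, if_neg (Ne.symm hj), zero_smul, star_zero,
      mul_zero]
  · simp

/-- Evaluation at an entry, as an additive homomorphism. -/
def entr (A : Type u) [CStarAlgebra A] {ι : Type} (i i' : ι) : CStarMatrix ι ι A →+ A where
  toFun Z := Z i i'
  map_zero' := rfl
  map_add' _ _ := rfl

/-- average of the diagonal entries -/
def avd {ι : Type} [Fintype ι] (X : CStarMatrix ι ι A) : A :=
  (Fintype.card ι : ℂ)⁻¹ • ∑ c, X c c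

omit [PartialOrder A] [StarOrderedRing A] in
theorem sum_conj {ι : Type} [Fintype ι] [DecidableEq ι] [Nonempty ι] (h : A)
    (X : CStarMatrix ι ι A) :
    ∑ σ : Equiv.Perm ι, ∑ e : ι → ℤˣ, tens (spm σ e) h * X * star (tens (spm σ e) h) =
      ((Fintype.card (Equiv.Perm ι) : ℂ) * (Fintype.card (ι → ℤˣ) : ℂ)) •
        dgl A ι (h * avd X * star h) := by
  ext i i'
  have hs : ∀ (κ : Type) (s : Finset κ) (F : κ → CStarMatrix ι ι A),
      (∑ k ∈ s, F k) i i' = ∑ k ∈ s, F k i i' := by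
    intro κ s F
    exact map_sum (entr A i i') F s
  rw [hs, CStarMatrix.smul_apply, dgl_apply]
  have h1 : ∀ σ : Equiv.Perm ι, (∑ e : ι → ℤˣ, tens (spm σ e) h * X * star (tens (spm σ e) h)) i i'
      = (∑ e : ι → ℤˣ, ((e i : ℤ) : ℂ) * ((e i' : ℤ) : ℂ)) • (h * X (σ i) (σ i') * star h) := by
    intro σ
    rw [hs, Finset.sum_smul]
    exact Finset.sum_congr rfl fun e _ => conj_apply σ e h X i i'
  rw [Finset.sum_congr rfl fun σ _ => h1 σ]
  by_cases hii : i = i'
  · subst hii
    have hsq : ∀ e : ι → ℤˣ, ((e i : ℤ) : ℂ) * ((e i : ℤ) : ℂ) = 1 := by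
      intro e
      rcases Int.units_eq_one_or (e i) with h | h <;> simp [h]
    rw [Finset.sum_congr rfl fun e _ => hsq e, if_pos rfl, ← Finset.smul_sum, Finset.sum_const,
      Finset.card_univ, nsmul_eq_mul, mul_one, mul_comm, mul_smul]
    congr 1
    have hc : (Fintype.card ι : ℂ) ≠ 0 := by
      exact_mod_cast Fintype.card_ne_zero
    have := sum_perm (fun c => h * X c c * star h) i
    rw [avd, mul_smul_comm, smul_mul_assoc, Finset.mul_sum, Finset.sum_mul, smul_smul, mul_comm,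
      mul_smul, ← this, smul_smul, inv_mul_cancel₀ hc, one_smul]
  · rw [sum_sign hii, if_neg hii]
    simp

theorem isTracialState_ntr {τ : A →ₗ[ℂ] ℂ} (hτ : IsTracialState τ) (ι : Type) [Fintype ι]
    [DecidableEq ι] [Nonempty ι] : IsTracialState (ntr τ ι) := by
  have hc : (Fintype.card ι : ℂ) ≠ 0 := by
    exact_mod_cast Fintype.card_ne_zero
  refine ⟨?_, ?_, ?_⟩
  · rw [ntr, LinearMap.smul_apply, tr_apply]
    have : ∀ i : ι, τ ((1 : CStarMatrix ι ι A) i i) = 1 := by
      intro i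
      rw [CStarMatrix.one_apply, if_pos rfl, hτ.one]
    rw [Finset.sum_congr rfl fun i _ => this i, Finset.sum_const, Finset.card_univ, nsmul_eq_mul,
      mul_one, smul_eq_mul, inv_mul_cancel₀ hc]
  · intro X
    rw [ntr, LinearMap.smul_apply, tr_apply, smul_eq_mul]
    refine mul_nonneg ?_ (Finset.sum_nonneg fun i _ => ?_)
    · rw [Complex.nonneg_iff]
      constructor
      · rw [← Complex.ofReal_natCast, ← Complex.ofReal_inv, Complex.ofReal_re]
        positivity
      · rw [← Complex.ofReal_natCast, ← Complex.ofReal_inv, Complex.ofReal_im]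
    · rw [CStarMatrix.mul_apply, map_sum]
      refine Finset.sum_nonneg fun j _ => ?_
      rw [CStarMatrix.star_apply]
      exact hτ.pos _
  · intro X Y
    rw [ntr, LinearMap.smul_apply, LinearMap.smul_apply, tr_apply, tr_apply]
    congr 1
    simp only [CStarMatrix.mul_apply, map_sum]
    rw [Finset.sum_comm]
    exact Finset.sum_congr rfl fun i _ => Finset.sum_congr rfl fun j _ => hτ.comm _ _

omit [PartialOrder A] [StarOrderedRing A] in
theorem tau_avd (τ : A →ₗ[ℂ] ℂ) {ι : Type} [Fintype ι] (X : CStarMatrix ι ι A) :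
    τ (avd X) = ntr τ ι X := by
  rw [avd, map_smul, map_sum, ntr, LinearMap.smul_apply, tr_apply]

omit [PartialOrder A] [StarOrderedRing A] in
theorem avd_sa {ι : Type} [Fintype ι] {X : CStarMatrix ι ι A} (hX : IsSelfAdjoint X) :
    IsSelfAdjoint (avd X) := by
  have h1 : ∀ c, star (X c c) = X c c := by
    intro c
    have h2 : (star X) c c = X c c := by rw [hX.star_eq]
    rwa [CStarMatrix.star_apply] at h2
  rw [IsSelfAdjoint, avd, star_smul, star_sum, Finset.sum_congr rfl fun c _ => h1 c]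
  congr 1
  simp

/-- The index type of the averaging. -/
abbrev AvI (ι : Type) (N₀ : ℕ) : Type := Equiv.Perm ι × (ι → ℤˣ) × Fin (N₀ + 1)

theorem prove_dix : St_dix.{u} := by
  intro A _ _ _ τ hτ hD ι _ _ _
  refine ⟨isTracialState_ntr hτ ι, fun X hX ε hε => ?_⟩
  obtain ⟨N₀, g, hg⟩ := hD (avd X) (avd_sa hX) ε hε
  have hcard : 0 < Fintype.card (AvI ι N₀) := Fintype.card_pos
  obtain ⟨N, hN⟩ : ∃ N, Fintype.card (AvI ι N₀) = N + 1 := ⟨Fintype.card (AvI ι N₀) - 1, by omega⟩
  let E : AvI ι N₀ ≃ Fin (N + 1) := Fintype.equivFinOfCardEq hN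
  refine ⟨N, fun k => ⟨spm (E.symm k).1 (E.symm k).2.1, spm_mem _ _⟩, fun k => g (E.symm k).2.2, ?_⟩
  have hsum : ∑ k : Fin (N + 1), tens (spm (E.symm k).1 (E.symm k).2.1)
      (g (E.symm k).2.2 : A) * X * star (tens (spm (E.symm k).1 (E.symm k).2.1)
      (g (E.symm k).2.2 : A)) =
      ((Fintype.card (Equiv.Perm ι) : ℂ) * (Fintype.card (ι → ℤˣ) : ℂ)) •
        dgl A ι (∑ k, (g k : A) * avd X * star (g k : A)) := by
    rw [Equiv.sum_comp E.symm (fun p : AvI ι N₀ => tens (spm p.1 p.2.1) (g p.2.2 : A) * X *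
      star (tens (spm p.1 p.2.1) (g p.2.2 : A)))]
    rw [Fintype.sum_prod_type]
    simp only [Fintype.sum_prod_type]
    have h1 : ∀ σ : Equiv.Perm ι, ∑ e : ι → ℤˣ, ∑ k : Fin (N₀ + 1),
        tens (spm σ e) (g k : A) * X * star (tens (spm σ e) (g k : A)) =
        ∑ k : Fin (N₀ + 1), ∑ e : ι → ℤˣ,
          tens (spm σ e) (g k : A) * X * star (tens (spm σ e) (g k : A)) :=
      fun σ => Finset.sum_comm
    rw [Finset.sum_congr rfl fun σ _ => h1 σ, Finset.sum_comm,
      Finset.sum_congr rfl fun k _ => sum_conj (g k : A) X, ← Finset.smul_sum, map_sum]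
  have hM : ((N : ℂ) + 1) = (Fintype.card (Equiv.Perm ι) : ℂ) * (Fintype.card (ι → ℤˣ) : ℂ) *
      ((N₀ : ℂ) + 1) := by
    have := congrArg (Nat.cast (R := ℂ)) hN
    rw [Fintype.card_prod, Fintype.card_prod, Fintype.card_fin] at this
    push_cast at this ⊢
    rw [← this]
    ring
  have hP : (Fintype.card (Equiv.Perm ι) : ℂ) ≠ 0 := by exact_mod_cast Fintype.card_ne_zero
  have hS : (Fintype.card (ι → ℤˣ) : ℂ) ≠ 0 := by exact_mod_cast Fintype.card_ne_zero
  have hN0 : ((N₀ : ℂ) + 1) ≠ 0 := by exact_mod_cast Nat.succ_ne_zero N₀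
  have halg : algebraMap ℂ (CStarMatrix ι ι A) (ntr τ ι X) =
      dgl A ι (algebraMap ℂ A (τ (avd X))) := by
    ext i j
    rw [dgl_apply, CStarMatrix.algebraMap_apply, tau_avd]
  show ‖((N : ℂ) + 1)⁻¹ • ∑ k : Fin (N + 1), tens (spm (E.symm k).1 (E.symm k).2.1)
      (g (E.symm k).2.2 : A) * X * star (tens (spm (E.symm k).1 (E.symm k).2.1)
      (g (E.symm k).2.2 : A)) - _‖ ≤ ε
  rw [hsum, halg, smul_smul, hM]
  have hco : ((Fintype.card (Equiv.Perm ι) : ℂ) * (Fintype.card (ι → ℤˣ) : ℂ) *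
      ((N₀ : ℂ) + 1))⁻¹ * ((Fintype.card (Equiv.Perm ι) : ℂ) * (Fintype.card (ι → ℤˣ) : ℂ)) =
      ((N₀ : ℂ) + 1)⁻¹ := by
    field_simp
  rw [hco, ← map_smul, ← map_sub]
  exact (norm_dgl_le ι _).trans hg

end

end H759R2.Kad
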